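import Mathlib

set_option autoImplicit false

namespace Pool.Agent.Helper83.Bishops

/-- Counting elements of `U` that are at most `q`. -/
abbrev cnt (U : Finset ℕ) (q : ℕ) : ℕ := (U.filter (fun i => i ≤ q)).card

/-- Elements `j` of `W` with `j + A ≤ q`. -/
abbrev cntS (W : Finset ℕ) (A q : ℕ) : ℕ := (W.filter (fun j => j + A ≤ q)).card

theorem cnt_le (U : Finset ℕ) (q : ℕ) : cnt U q ≤ q + 1 := by
  have : U.filter (fun i => i ≤ q) ⊆ Finset.range (q + 1) := by
    intro i hi
    simp only [Finset.mem_filter] at hi
    simp only [Finset.mem_range]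
    omega
  simpa using Finset.card_le_card this

/-- The left lemma. -/
theorem left_lemma (c : ℕ) : ∀ (q : ℕ) (U W : Finset ℕ) (A B : ℕ),
    c ≤ A → A ≤ c + 1 → c ≤ B → B ≤ c + 1 →
    (∀ i ∈ U, i ≤ q → ∀ j ∈ W, j ≤ q + B → (i + j < c ∨ j + A < i ∨ i + B < j)) →
    (∀ p, cnt U p ≤ A + cntS W A p) →
    (∀ p, cnt W p ≤ B + cntS U B p) →
    q ∈ U →
    (∀ r ∈ W, r ≤ q + B → r + A < q) →
    3 * (cnt U q + cnt W (q + B)) + A ≤ 2 * q + 2 * c + 4 := by
  intro q
  induction q using Nat.strong_induction_on with
  | _ q ih =>
  intro U W A B hA1 hA2 hB1 hB2 h1 h2 h3 hq hcond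
  have ha1 : cnt U q ≤ q + 1 := cnt_le U q
  have ha2 := h2 q
  by_cases hWq : (W.filter (fun j => j ≤ q + B)) = ∅
  · have hb : cnt W (q + B) = 0 := by
      unfold cnt; rw [hWq]; rfl
    have hb' : cntS W A q = 0 := by
      rw [Finset.card_eq_zero, Finset.filter_eq_empty_iff]
      intro j hj hjq
      rw [Finset.filter_eq_empty_iff] at hWq
      exact hWq hj (by omega)
    rw [hb' ] at ha2
    rw [hb]
    omega
  · have hne : (W.filter (fun j => j ≤ q + B)).Nonempty := Finset.nonempty_iff_ne_empty.mpr hWq
    obtain ⟨r, hrmem, hrmax⟩ := Finset.exists_max_image _ (fun x => x) hne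
    simp only [Finset.mem_filter] at hrmem hrmax
    obtain ⟨hrW, hrq⟩ := hrmem
    have hrA : r + A < q := hcond r hrW hrq
    have hbr : cnt W (q + B) = cnt W r := by
      unfold cnt
      congr 1
      apply Finset.filter_congr
      intro j hj
      constructor
      · intro hjq; exact hrmax j ⟨hj, hjq⟩
      · intro hjr; omega
    have hb1 : cnt W r ≤ r + 1 := cnt_le W r
    have hSW : cntS W A q ≤ cnt W r := by
      rw [← hbr]
      apply Finset.card_le_card
      intro j hj
      simp only [Finset.mem_filter] at hj ⊢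
      exact ⟨hj.1, by omega⟩
    -- split of U
    have hx : cnt U q ≤ cnt U (r + A) + (q - (r + A)) := by
      have hsub : U.filter (fun i => i ≤ q) ⊆ U.filter (fun i => i ≤ r + A) ∪ Finset.Ioc (r + A) q := by
        intro i hi
        simp only [Finset.mem_filter, Finset.mem_union, Finset.mem_Ioc] at hi ⊢
        by_cases h : i ≤ r + A
        · left; exact ⟨hi.1, h⟩
        · right; omega
      calc cnt U q ≤ _ := Finset.card_le_card hsub
        _ ≤ _ := Finset.card_union_le _ _
        _ = _ := by simp
    have h3r := h3 r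
    have hSU : cntS U B r ≤ cnt U (r + A) := by
      apply Finset.card_le_card
      intro i hi
      simp only [Finset.mem_filter] at hi ⊢
      exact ⟨hi.1, by omega⟩
    rw [hbr]
    by_cases hcl : ∀ i ∈ U, i ≤ r + A → i + B < r
    · -- apply induction with roles swapped
      have key := ih r (by omega) W U B A hB1 hB2 hA1 hA2 (by
        intro j hj hjr i hi hir
        rcases h1 i hi (by omega) j hj (by omega) with h | h | h
        · left; omega
        · right; right; exact h
        · right; left; exact h) h3 h2 hrW hcl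
      omega
    · push Not at hcl
      obtain ⟨i0, hi0U, hi0r, hi0B⟩ := hcl
      -- take maximum of U below r + A
      have hneU : (U.filter (fun i => i ≤ r + A)).Nonempty := ⟨i0, by simp [hi0U, hi0r]⟩
      obtain ⟨q0, hq0mem, hq0max⟩ := Finset.exists_max_image _ (fun x => x) hneU
      simp only [Finset.mem_filter] at hq0mem hq0max
      have hi0q0 : i0 ≤ q0 := hq0max i0 ⟨hi0U, hi0r⟩
      have hq0c : q0 + r < c := by
        rcases h1 q0 hq0mem.1 (by omega) r hrW (by omega) with h | h | h
        · exact h
        · omega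
        · omega
      have ha0 : cnt U (r + A) ≤ q0 + 1 := by
        have hsub : U.filter (fun i => i ≤ r + A) ⊆ Finset.range (q0 + 1) := by
          intro i hi
          simp only [Finset.mem_filter] at hi
          have := hq0max i hi
          simp only [Finset.mem_range]; omega
        simpa using Finset.card_le_card hsub
      omega

end Pool.Agent.Helper83.Bishops
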