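import Mathlib
import Pool.Agent.Helper83.BishopsCore

set_option autoImplicit false

namespace Pool.Agent.Helper83.Bishops

/-- Mirror image of a subset of `[0,t)`. -/
abbrev mir (t : ℕ) (U : Finset ℕ) : Finset ℕ := U.image (fun i => t - 1 - i)

structure Conf (tS tD A B c A' B' c' : ℕ) (U W : Finset ℕ) : Prop where
  hU : ∀ i ∈ U, i < tS
  hW : ∀ j ∈ W, j < tD
  hA1 : c ≤ A
  hA2 : A ≤ c + 1
  hB1 : c ≤ B
  hB2 : B ≤ c + 1
  hA1' : c' ≤ A'
  hA2' : A' ≤ c' + 1
  hB1' : c' ≤ B'
  hB2' : B' ≤ c' + 1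
  e1 : A' + tD = B + tS
  e2 : B' + tS = A + tD
  hsize : 2 * (A + B) + c + c' + 4 ≤ tS + tD
  hcard : U.card + tD = W.card + tS
  hE : ∀ i ∈ U, ∀ j ∈ W, i + j < c ∨ j + A < i ∨ i + B < j ∨ tS + tD < c' + i + j + 2
  h2 : ∀ q, cnt U q ≤ A + cntS W A q
  h3 : ∀ q, cnt W q ≤ B + cntS U B q
  h2' : ∀ q, cnt (mir tS U) q ≤ A' + cntS (mir tD W) A' q
  h3' : ∀ q, cnt (mir tD W) q ≤ B' + cntS (mir tS U) B' q

theorem Conf.swap {tS tD A B c A' B' c' : ℕ} {U W : Finset ℕ}
    (h : Conf tS tD A B c A' B' c' U W) : Conf tD tS B A c B' A' c' W U := by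
  obtain ⟨hU, hW, hA1, hA2, hB1, hB2, hA1', hA2', hB1', hB2', e1, e2, hsize, hcard, hE, h2, h3, h2', h3'⟩ := h
  refine ⟨hW, hU, hB1, hB2, hA1, hA2, hB1', hB2', hA1', hA2', e2, e1, by omega, by omega, ?_, h3, h2, h3', h2'⟩
  intro j hj i hi
  have := hE i hi j hj
  omega

theorem mir_mir {t : ℕ} {U : Finset ℕ} (hU : ∀ i ∈ U, i < t) : mir t (mir t U) = U := by
  ext i
  simp only [mir, Finset.mem_image]
  constructor
  · rintro ⟨a, ⟨b, hb, rfl⟩, rfl⟩
    have := hU b hb
    have h : t - 1 - (t - 1 - b) = b := by omega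
    rw [h]; exact hb
  · intro hi
    have := hU i hi
    exact ⟨t - 1 - i, ⟨i, hi, rfl⟩, by omega⟩

theorem card_mir {t : ℕ} {U : Finset ℕ} (hU : ∀ i ∈ U, i < t) : (mir t U).card = U.card := by
  apply Finset.card_image_of_injOn
  intro a ha b hb hab
  have := hU a (by exact_mod_cast ha)
  have := hU b (by exact_mod_cast hb)
  simp only at hab
  omega

theorem Conf.mirror {tS tD A B c A' B' c' : ℕ} {U W : Finset ℕ}
    (h : Conf tS tD A B c A' B' c' U W) :
    Conf tS tD A' B' c' A B c (mir tS U) (mir tD W) := by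
  have hcU := card_mir h.hU
  have hcW := card_mir h.hW
  have hmU := mir_mir h.hU
  have hmW := mir_mir h.hW
  obtain ⟨hU, hW, hA1, hA2, hB1, hB2, hA1', hA2', hB1', hB2', e1, e2, hsize, hcard, hE, h2, h3, h2', h3'⟩ := h
  refine ⟨?_, ?_, hA1', hA2', hB1', hB2', hA1, hA2, hB1, hB2, by omega, by omega, by omega, by omega, ?_, h2', h3', ?_, ?_⟩
  · intro i hi
    simp only [mir, Finset.mem_image] at hi
    obtain ⟨a, ha, rfl⟩ := hi
    have := hU a ha
    omega
  · intro i hi
    simp only [mir, Finset.mem_image] at hi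
    obtain ⟨a, ha, rfl⟩ := hi
    have := hW a ha
    omega
  · intro i hi j hj
    simp only [mir, Finset.mem_image] at hi hj
    obtain ⟨a, ha, rfl⟩ := hi
    obtain ⟨b, hb, rfl⟩ := hj
    have := hU a ha
    have := hW b hb
    have := hE a ha b hb
    omega
  · rw [hmU, hmW]; exact h2
  · rw [hmU, hmW]; exact h3

/-- counts in the mirror image -/
theorem cnt_mir {t : ℕ} {U : Finset ℕ} (hU : ∀ i ∈ U, i < t) (q : ℕ) :
    cnt (mir t U) q = (U.filter (fun i => t - 1 - i ≤ q)).card := by
  unfold cnt mir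
  rw [Finset.filter_image]
  apply Finset.card_image_of_injOn
  intro a ha b hb hab
  simp only [Finset.coe_filter, Set.mem_setOf_eq] at ha hb
  have := hU a ha.1
  have := hU b hb.1
  simp only at hab
  omega

theorem cntS_mir {t : ℕ} {U : Finset ℕ} (hU : ∀ i ∈ U, i < t) (A q : ℕ) :
    cntS (mir t U) A q = (U.filter (fun i => t - 1 - i + A ≤ q)).card := by
  unfold cntS mir
  rw [Finset.filter_image]
  apply Finset.card_image_of_injOn
  intro a ha b hb hab
  simp only [Finset.coe_filter, Set.mem_setOf_eq] at ha hb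
  have := hU a ha.1
  have := hU b hb.1
  simp only at hab
  omega

/-- The case with a genuine cut `U`-element to the left of a `W`-element. -/
theorem Conf.cut {tS tD A B c A' B' c' : ℕ} {U W : Finset ℕ}
    (h : Conf tS tD A B c A' B' c' U W) (i j : ℕ) (hi : i ∈ U) (hj : j ∈ W)
    (hic : ∀ j' ∈ W, c ≤ i + j') (hjc : ∀ i' ∈ U, c' + i' + j + 2 ≤ tS + tD)
    (hij : i + B < j) :
    3 * (U.card + W.card) + 2 * (A + B) ≤ tS + tD + 2 * (c + c') + 4 := by
  obtain ⟨hU, hW, hA1, hA2, hB1, hB2, hA1', hA2', hB1', hB2', e1, e2, hsize, hcard, hE, h2, h3, h2', h3'⟩ := h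
  -- minimal element of W beyond i + B
  have hne : (W.filter (fun x => i + B < x)).Nonempty := ⟨j, by simp [hj, hij]⟩
  obtain ⟨p, hpmem, hpmin⟩ := Finset.exists_min_image _ (fun x => x) hne
  simp only [Finset.mem_filter] at hpmem hpmin
  obtain ⟨hpW, hip⟩ := hpmem
  have hpj : p ≤ j := hpmin j ⟨hj, hij⟩
  have hne2 : (U.filter (fun x => x + B < p)).Nonempty := ⟨i, by simp [hi, hip]⟩
  obtain ⟨q, hqmem, hqmax⟩ := Finset.exists_max_image _ (fun x => x) hne2
  simp only [Finset.mem_filter] at hqmem hqmax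
  obtain ⟨hqU, hqp⟩ := hqmem
  have hiq : i ≤ q := hqmax i ⟨hi, hip⟩
  have hqt := hU q hqU
  have hpt := hW p hpW
  -- left lemma
  have L := left_lemma c q U W A B hA1 hA2 hB1 hB2 (by
      intro a ha haq b hb hbq
      have h4 := hE a ha b hb
      omega) h2 h3 hqU (by
      intro r hr hrq
      have h4 := hE q hqU r hr
      have h5 := hic r hr
      omega)
  -- right lemma
  have hr'W : tD - 1 - p ∈ mir tD W := by
    simp only [mir, Finset.mem_image]
    exact ⟨p, hpW, rfl⟩
  have R := left_lemma c' (tD - 1 - p) (mir tD W) (mir tS U) B' A' hB1' hB2' hA1' hA2' (by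
      intro a' ha' haq b' hb' hbq
      simp only [mir, Finset.mem_image] at ha' hb'
      obtain ⟨a, ha, rfl⟩ := ha'
      obtain ⟨b, hb, rfl⟩ := hb'
      have hat := hW a ha
      have hbt := hU b hb
      have h4 := hE b hb a ha
      omega) h3' h2' hr'W (by
      intro b' hb' hbq
      simp only [mir, Finset.mem_image] at hb'
      obtain ⟨b, hb, rfl⟩ := hb'
      have hbt := hU b hb
      have h4 := hE b hb p hpW
      have h5 := hjc b hb
      omega)
  rw [cnt_mir hW, cnt_mir hU] at R
  -- total counts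
  have hUc : U.card ≤ cnt U q + (U.filter (fun i => tS - 1 - i ≤ tD - 1 - p + A')).card := by
    have hsub : U ⊆ U.filter (fun i => i ≤ q) ∪ U.filter (fun i => tS - 1 - i ≤ tD - 1 - p + A') := by
      intro a ha
      simp only [Finset.mem_union, Finset.mem_filter]
      by_cases haq : a ≤ q
      · left; exact ⟨ha, haq⟩
      · right
        refine ⟨ha, ?_⟩
        have hat := hU a ha
        by_cases hap : a + B < p
        · have := hqmax a ⟨ha, hap⟩
          omega
        · omega
    exact (Finset.card_le_card hsub).trans (Finset.card_union_le _ _)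
  have hWc : W.card ≤ cnt W (q + B) + (W.filter (fun i => tD - 1 - i ≤ tD - 1 - p)).card := by
    have hsub : W ⊆ W.filter (fun i => i ≤ q + B) ∪ W.filter (fun i => tD - 1 - i ≤ tD - 1 - p) := by
      intro a ha
      simp only [Finset.mem_union, Finset.mem_filter]
      by_cases haq : a ≤ q + B
      · left; exact ⟨ha, haq⟩
      · right
        refine ⟨ha, ?_⟩
        have hat := hW a ha
        have := hpmin a ⟨ha, by omega⟩
        omega
    exact (Finset.card_le_card hsub).trans (Finset.card_union_le _ _)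
  omega

theorem card_filter_le_sub (U : Finset ℕ) (P : ℕ → Prop) [DecidablePred P] (a b : ℕ)
    (h : ∀ i ∈ U, P i → a ≤ i ∧ i < b) : (U.filter P).card ≤ b - a := by
  have hsub : U.filter P ⊆ Finset.Ico a b := by
    intro i hi
    simp only [Finset.mem_filter] at hi
    simp only [Finset.mem_Ico]
    exact h i hi.1 hi.2
  simpa using Finset.card_le_card hsub

theorem card_filter_add_le (U : Finset ℕ) (P : ℕ → Prop) [DecidablePred P] (a b : ℕ) (hab : a ≤ b)
    (h : ∀ i ∈ U, P i → a ≤ i ∧ i < b) : (U.filter P).card + a ≤ b := by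
  have := card_filter_le_sub U P a b h
  omega

/-- All elements of `W` are in the left cluster. -/
theorem Conf.left_only {tS tD A B c A' B' c' : ℕ} {U W : Finset ℕ}
    (h : Conf tS tD A B c A' B' c' U W)
    (hall : ∀ j ∈ W, ∃ i ∈ U, i + j < c) (hne : W.Nonempty) :
    3 * (U.card + W.card) + 2 * (A + B) ≤ tS + tD + 2 * (c + c') + 4 := by
  obtain ⟨hU, hW, hA1, hA2, hB1, hB2, hA1', hA2', hB1', hB2', e1, e2, hsize, hcard, hE, h2, h3, h2', h3'⟩ := h
  obtain ⟨j1, hj1W, hj1max⟩ := Finset.exists_max_image W (fun x => x) hne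
  obtain ⟨i1, hi1U, hi1⟩ := hall j1 hj1W
  have hWc : W.card ≤ j1 + 1 := by
    have := card_filter_le_sub W (fun _ => True) 0 (j1 + 1) (by
      intro i hi _
      have := hj1max i hi
      omega)
    simpa using this
  have hUL : (U.filter (fun i => i ≤ j1 + A)).card ≤ c - j1 := by
    have := card_filter_le_sub U (fun i => i ≤ j1 + A) 0 (c - j1) (by
      intro i hi hij
      have h4 := hE i hi j1 hj1W
      have := hU i hi
      omega)
    simpa using this
  have hU0 : (U.filter (fun i => j1 + A < i)).card ≤ A' := by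
    by_cases ht : j1 + A + 1 < tS
    · have := h2' (tS - 1 - (j1 + A + 1))
      rw [cnt_mir hU, cntS_mir hW] at this
      have hz : (W.filter (fun i => tD - 1 - i + A' ≤ tS - 1 - (j1 + A + 1))).card = 0 := by
        rw [Finset.card_eq_zero, Finset.filter_eq_empty_iff]
        intro j hj hjq
        have := hj1max j hj
        have := hW j hj
        omega
      rw [hz] at this
      refine le_trans ?_ (this.trans (by omega))
      apply Finset.card_le_card
      intro i hi
      simp only [Finset.mem_filter] at hi ⊢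
      have := hU i hi.1
      exact ⟨hi.1, by omega⟩
    · have := card_filter_le_sub U (fun i => j1 + A < i) (j1 + A + 1) tS (by
        intro i hi hij
        have := hU i hi
        omega)
      omega
  have hUc : U.card ≤ (U.filter (fun i => i ≤ j1 + A)).card + (U.filter (fun i => j1 + A < i)).card := by
    have hsub : U ⊆ U.filter (fun i => i ≤ j1 + A) ∪ U.filter (fun i => j1 + A < i) := by
      intro a ha
      simp only [Finset.mem_union, Finset.mem_filter]
      by_cases haq : a ≤ j1 + A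
      · left; exact ⟨ha, haq⟩
      · right; exact ⟨ha, by omega⟩
    exact (Finset.card_le_card hsub).trans (Finset.card_union_le _ _)
  have hj1c : j1 < c := by omega
  omega

/-- All elements of `W` are in clusters, both clusters occur. -/
theorem Conf.both {tS tD A B c A' B' c' : ℕ} {U W : Finset ℕ}
    (h : Conf tS tD A B c A' B' c' U W)
    (hall : ∀ j ∈ W, (∃ i ∈ U, i + j < c) ∨ (∃ i ∈ U, tS + tD < c' + i + j + 2))
    (hL : ∃ j ∈ W, ∃ i ∈ U, i + j < c)
    (hR : ∃ j ∈ W, ∃ i ∈ U, tS + tD < c' + i + j + 2) :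
    3 * (U.card + W.card) + 2 * (A + B) ≤ tS + tD + 2 * (c + c') + 4 := by
  classical
  obtain ⟨hU, hW, hA1, hA2, hB1, hB2, hA1', hA2', hB1', hB2', e1, e2, hsize, hcard, hE, -, -, -, -⟩ := h
  obtain ⟨jl, hjl, hjl'⟩ := hL
  obtain ⟨jr, hjr, hjr'⟩ := hR
  have hneL : (W.filter (fun j => ∃ i ∈ U, i + j < c)).Nonempty := ⟨jl, by
    simp only [Finset.mem_filter]; exact ⟨hjl, hjl'⟩⟩
  have hneR : (W.filter (fun j => ∃ i ∈ U, tS + tD < c' + i + j + 2)).Nonempty := ⟨jr, by
    simp only [Finset.mem_filter]; exact ⟨hjr, hjr'⟩⟩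
  obtain ⟨j1, hj1, hj1max⟩ := Finset.exists_max_image _ (fun x => x) hneL
  obtain ⟨j2, hj2, hj2min⟩ := Finset.exists_min_image _ (fun x => x) hneR
  simp only [Finset.mem_filter] at hj1 hj1max hj2 hj2min
  clear hjl hjl' hjr hjr' hneL hneR
  obtain ⟨hj1W, i1, hi1U, hi1⟩ := hj1
  obtain ⟨hj2W, i2, hi2U, hi2⟩ := hj2
  have hj2t := hW j2 hj2W
  have hi2t := hU i2 hi2U
  have hj1c : j1 < c := by clear * - hi1; omega
  have hj2c : tD ≤ c' + j2 := by clear * - hi2 hi2t; omega
  have hcc : c + c' ≤ tD := by clear * - hsize e1 e2 hA1 hB1 hA1' hB1' hA2 hB2 hA2' hB2'; omega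
  have hcc2 : c + c' ≤ tS := by clear * - hsize e1 e2 hA1 hB1 hA1' hB1' hA2 hB2 hA2' hB2'; omega
  have hWL : (W.filter (fun j => ∃ i ∈ U, i + j < c)).card ≤ j1 + 1 := by
    have := card_filter_add_le W (fun j => ∃ i ∈ U, i + j < c) 0 (j1 + 1) (Nat.zero_le _) (by
      intro j hj hj'
      have := hj1max j ⟨hj, hj'⟩
      clear * - this
      omega)
    exact this
  have hWR : (W.filter (fun j => ∃ i ∈ U, tS + tD < c' + i + j + 2)).card + j2 ≤ tD := by
    exact card_filter_add_le W (fun j => ∃ i ∈ U, tS + tD < c' + i + j + 2) j2 tD hj2t.le (by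
      intro j hj hj'
      have h5 := hj2min j ⟨hj, hj'⟩
      have h6 := hW j hj
      exact ⟨h5, h6⟩)
  have hWc : W.card ≤ (W.filter (fun j => ∃ i ∈ U, i + j < c)).card +
      (W.filter (fun j => ∃ i ∈ U, tS + tD < c' + i + j + 2)).card := by
    have hsub : W ⊆ W.filter (fun j => ∃ i ∈ U, i + j < c) ∪
      W.filter (fun j => ∃ i ∈ U, tS + tD < c' + i + j + 2) := by
      intro a ha
      simp only [Finset.mem_union, Finset.mem_filter]
      rcases hall a ha with h | h
      · left; exact ⟨ha, h⟩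
      · right; exact ⟨ha, h⟩
    exact (Finset.card_le_card hsub).trans (Finset.card_union_le _ _)
  have hUL : (U.filter (fun i => i ≤ j1 + A)).card + j1 ≤ c := by
    have := card_filter_add_le U (fun i => i ≤ j1 + A) 0 (c - j1) (Nat.zero_le _) (by
      intro i hi hij
      have h4 := hE i hi j1 hj1W
      have h5 := hU i hi
      clear * - h4 h5 hij hj1c hcc hB1
      omega)
    clear * - this hj1c
    omega
  have hUR : (U.filter (fun i => j2 ≤ i + B)).card + tD ≤ c' + j2 + 1 := by
    have := card_filter_le_sub U (fun i => j2 ≤ i + B) (tS + tD - c' - j2 - 1) tS (by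
      intro i hi hij
      have h4 := hE i hi j2 hj2W
      have h5 := hU i hi
      clear * - h4 h5 hij hj2c hcc hcc2 e1 e2 hA1' hB1'
      omega)
    clear * - this hj2c hj2t hcc hcc2
    omega
  clear hE hall hj1max hj2min
  have hWW : W.card + j2 ≤ tD + j1 + 1 := by
    clear * - hWc hWL hWR
    omega
  clear hWc hWL hWR
  by_cases hov : j1 + A + 1 + B ≤ j2
  · have hU0 : (U.filter (fun i => j1 + A < i ∧ i + B < j2)).card + (j1 + A + 1) ≤ (j2 - B) := by
      refine card_filter_add_le U (fun i => j1 + A < i ∧ i + B < j2) (j1 + A + 1) (j2 - B) ?_ (by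
        intro i hi hij
        clear * - hij
        omega)
      clear * - hov
      omega
    have hUc : U.card ≤ (U.filter (fun i => i ≤ j1 + A)).card + (U.filter (fun i => j2 ≤ i + B)).card
        + (U.filter (fun i => j1 + A < i ∧ i + B < j2)).card := by
      have hsub : U ⊆ (U.filter (fun i => i ≤ j1 + A) ∪ U.filter (fun i => j2 ≤ i + B)) ∪
          U.filter (fun i => j1 + A < i ∧ i + B < j2) := by
        intro a ha
        simp only [Finset.mem_union, Finset.mem_filter]
        by_cases haq : a ≤ j1 + A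
        · left; left; exact ⟨ha, haq⟩
        · by_cases haq2 : j2 ≤ a + B
          · left; right; exact ⟨ha, haq2⟩
          · right; exact ⟨ha, by clear * - haq; omega, by clear * - haq2; omega⟩
      refine (Finset.card_le_card hsub).trans ((Finset.card_union_le _ _).trans ?_)
      exact Nat.add_le_add_right (Finset.card_union_le _ _) _
    have hU0' : (U.filter (fun i => j1 + A < i ∧ i + B < j2)).card + (j1 + A + 1) + B ≤ j2 := by
      clear * - hU0 hov
      omega
    clear * - hUc hU0' hUL hUR hWW hcard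
    omega
  · have hUc : U.card ≤ (U.filter (fun i => i ≤ j1 + A)).card + (U.filter (fun i => j2 ≤ i + B)).card := by
      have hsub : U ⊆ (U.filter (fun i => i ≤ j1 + A) ∪ U.filter (fun i => j2 ≤ i + B)) := by
        intro a ha
        simp only [Finset.mem_union, Finset.mem_filter]
        by_cases haq : a ≤ j1 + A
        · left; exact ⟨ha, haq⟩
        · right; exact ⟨ha, by clear * - haq hov; omega⟩
      exact (Finset.card_le_card hsub).trans (Finset.card_union_le _ _)
    clear * - hUc hUL hUR hWW hcard hsize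
    omega

/-- All elements of `W` are in clusters. -/
theorem Conf.allCluster {tS tD A B c A' B' c' : ℕ} {U W : Finset ℕ}
    (h : Conf tS tD A B c A' B' c' U W)
    (hall : ∀ j ∈ W, (∃ i ∈ U, i + j < c) ∨ (∃ i ∈ U, tS + tD < c' + i + j + 2)) :
    3 * (U.card + W.card) + 2 * (A + B) ≤ tS + tD + 2 * (c + c') + 4 := by
  by_cases hL : ∃ j ∈ W, ∃ i ∈ U, i + j < c
  · by_cases hR : ∃ j ∈ W, ∃ i ∈ U, tS + tD < c' + i + j + 2
    · exact h.both hall hL hR
    · apply h.left_only
      · intro j hj
        rcases hall j hj with h1 | h1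
        · exact h1
        · exact absurd ⟨j, hj, h1⟩ hR
      · obtain ⟨j, hj, _⟩ := hL
        exact ⟨j, hj⟩
  · by_cases hR : ∃ j ∈ W, ∃ i ∈ U, tS + tD < c' + i + j + 2
    · have hm := h.mirror.left_only (by
        intro j' hj'
        simp only [mir, Finset.mem_image] at hj'
        obtain ⟨j, hj, rfl⟩ := hj'
        have hjt := h.hW j hj
        rcases hall j hj with h1 | ⟨i, hi, h1⟩
        · exact absurd ⟨j, hj, h1⟩ hL
        · have hit := h.hU i hi
          refine ⟨tS - 1 - i, ?_, by omega⟩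
          simp only [mir, Finset.mem_image]
          exact ⟨i, hi, rfl⟩) (by
        obtain ⟨j, hj, _⟩ := hR
        refine ⟨tD - 1 - j, ?_⟩
        simp only [mir, Finset.mem_image]
        exact ⟨j, hj, rfl⟩)
      rw [card_mir h.hU, card_mir h.hW] at hm
      have e1 := h.e1
      have e2 := h.e2
      omega
    · have hWe : W = ∅ := by
        rw [Finset.eq_empty_iff_forall_notMem]
        intro j hj
        rcases hall j hj with h1 | h1
        · exact hL ⟨j, hj, h1⟩
        · exact hR ⟨j, hj, h1⟩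
      have hcard := h.hcard
      rw [hWe] at hcard ⊢
      simp only [Finset.card_empty] at hcard ⊢
      obtain ⟨hU, hW, hA1, hA2, hB1, hB2, hA1', hA2', hB1', hB2', e1, e2, hsize, -, -, -, -, -, -⟩ := h
      omega

theorem Conf.main {tS tD A B c A' B' c' : ℕ} {U W : Finset ℕ}
    (h : Conf tS tD A B c A' B' c' U W) :
    3 * (U.card + W.card) + 2 * (A + B) ≤ tS + tD + 2 * (c + c') + 4 := by
  by_cases hWall : ∀ j ∈ W, (∃ i ∈ U, i + j < c) ∨ (∃ i ∈ U, tS + tD < c' + i + j + 2)
  · exact h.allCluster hWall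
  · by_cases hUall : ∀ i ∈ U, (∃ j ∈ W, j + i < c) ∨ (∃ j ∈ W, tD + tS < c' + j + i + 2)
    · have := h.swap.allCluster hUall
      omega
    · push Not at hWall hUall
      obtain ⟨j, hj, hj1, hj2⟩ := hWall
      obtain ⟨i, hi, hi1, hi2⟩ := hUall
      have h4 := h.hE i hi j hj
      have h5 := hj1 i hi
      have h6 := hj2 i hi
      by_cases hij : i + B < j
      · exact h.cut i j hi hj (by intro j' hj'; have := hi1 j' hj'; omega)
          (by intro i' hi'; have := hj2 i' hi'; omega) hij
      · have := h.swap.cut j i hj hi (by intro j' hj'; have := hj1 j' hj'; omega)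
          (by intro i' hi'; have := hi2 i' hi'; omega) (by omega)
        omega

end Pool.Agent.Helper83.Bishops
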