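import Mathlib

set_option autoImplicit false

namespace Pool.Agent.Helper83.Bishops

variable {α : Type*} [DecidableEq α]

/-- `D` dominates `Q` with respect to the two families of lines `s`, `d`. -/
def Dom (Q : Finset α) (s d : α → ℕ) (D : Finset α) : Prop :=
  ∀ z ∈ Q, ∃ x ∈ D, s x = s z ∨ d x = d z

theorem Dom.swap {Q : Finset α} {s d : α → ℕ} {D : Finset α} (h : Dom Q s d D) : Dom Q d s D := by
  intro z hz
  obtain ⟨x, hx, h1⟩ := h z hz
  exact ⟨x, hx, h1.symm⟩

theorem match_step (Q : Finset α) (s d : α → ℕ) (D : Finset α) (hDQ : D ⊆ Q) (hD : Dom Q s d D)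
    (x y : α) (hx : x ∈ D) (hy : y ∈ D) (hxy : x ≠ y) (hs : s x = s y) :
    ∃ D' ⊆ Q, Dom Q s d D' ∧ D'.card ≤ D.card ∧
      2 * D'.card + (D.image s).card + (D.image d).card + 1 ≤
      2 * D.card + (D'.image s).card + (D'.image d).card := by
  have hcard : (D.erase y).card + 1 = D.card := Finset.card_erase_add_one hy
  have hx1 : x ∈ D.erase y := Finset.mem_erase.mpr ⟨hxy, hx⟩
  have him : (D.erase y).image s = D.image s := by
    ext a
    simp only [Finset.mem_image, Finset.mem_erase]
    constructor
    · rintro ⟨b, ⟨_, hb⟩, rfl⟩; exact ⟨b, hb, rfl⟩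
    · rintro ⟨b, hb, rfl⟩
      by_cases hby : b = y
      · subst hby; exact ⟨x, ⟨hxy, hx⟩, hs⟩
      · exact ⟨b, ⟨hby, hb⟩, rfl⟩
  by_cases hdom : Dom Q s d (D.erase y)
  · refine ⟨D.erase y, (Finset.erase_subset _ _).trans hDQ, hdom, by omega, ?_⟩
    have h2 : (D.image d).card ≤ ((D.erase y).image d).card + 1 := by
      have : D.image d ⊆ insert (d y) ((D.erase y).image d) := by
        intro a ha
        simp only [Finset.mem_image, Finset.mem_insert, Finset.mem_erase] at ha ⊢
        obtain ⟨b, hb, rfl⟩ := ha
        by_cases hby : b = y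
        · left; rw [hby]
        · right; exact ⟨b, ⟨hby, hb⟩, rfl⟩
      exact (Finset.card_le_card this).trans (Finset.card_insert_le _ _)
    rw [him]
    omega
  · unfold Dom at hdom
    push Not at hdom
    obtain ⟨z, hzQ, hz⟩ := hdom
    obtain ⟨w, hw, hwz⟩ := hD z hzQ
    have hwy : w = y := by
      by_contra hne
      have := hz w (Finset.mem_erase.mpr ⟨hne, hw⟩)
      rcases hwz with h | h
      · exact this.1 h
      · exact this.2 h
    subst hwy
    have hsz : s w ≠ s z := by
      rw [← hs]; exact (hz x hx1).1
    have hdz : d w = d z := by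
      rcases hwz with h | h
      · exact absurd h hsz
      · exact h
    have hznot : z ∉ D.erase w := by
      intro hzD
      exact (hz z hzD).1 rfl
    refine ⟨insert z (D.erase w), ?_, ?_, ?_, ?_⟩
    · intro a ha
      rcases Finset.mem_insert.mp ha with h | h
      · rw [h]; exact hzQ
      · exact hDQ (Finset.mem_of_mem_erase h)
    · intro a ha
      obtain ⟨b, hb, hba⟩ := hD a ha
      by_cases hbw : b = w
      · subst hbw
        rcases hba with h | h
        · exact ⟨x, Finset.mem_insert_of_mem hx1, Or.inl (hs.trans h)⟩
        · exact ⟨z, Finset.mem_insert_self _ _, Or.inr (hdz.symm.trans h)⟩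
      · exact ⟨b, Finset.mem_insert_of_mem (Finset.mem_erase.mpr ⟨hbw, hb⟩), hba⟩
    · rw [Finset.card_insert_of_notMem hznot]; omega
    · rw [Finset.card_insert_of_notMem hznot, Finset.image_insert, Finset.image_insert, him]
      have h3 : s z ∉ D.image s := by
        rw [← him]
        simp only [Finset.mem_image, not_exists, not_and]
        intro b hb
        exact (hz b hb).1
      rw [Finset.card_insert_of_notMem h3]
      have h4 : (D.image d).card ≤ (insert (d z) ((D.erase w).image d)).card := by
        apply Finset.card_le_card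
        intro a ha
        simp only [Finset.mem_image, Finset.mem_insert, Finset.mem_erase] at ha ⊢
        obtain ⟨b, hb, rfl⟩ := ha
        by_cases hby : b = w
        · left; rw [hby, hdz]
        · right; exact ⟨b, ⟨hby, hb⟩, rfl⟩
      omega

theorem exists_matching (Q : Finset α) (s d : α → ℕ) : ∀ (N : ℕ) (D : Finset α), D ⊆ Q → Dom Q s d D →
    2 * D.card ≤ N + (D.image s).card + (D.image d).card →
    ∃ M ⊆ Q, Dom Q s d M ∧ M.card ≤ D.card ∧ Set.InjOn s M ∧ Set.InjOn d M := by
  intro N
  induction N with
  | zero =>
    intro D hDQ hD hN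
    have h1 : (D.image s).card ≤ D.card := Finset.card_image_le
    have h2 : (D.image d).card ≤ D.card := Finset.card_image_le
    refine ⟨D, hDQ, hD, le_rfl, ?_, ?_⟩
    · exact Finset.card_image_iff.mp (by omega)
    · exact Finset.card_image_iff.mp (by omega)
  | succ N ih =>
    intro D hDQ hD hN
    by_cases hs : Set.InjOn s (D : Set α)
    · by_cases hd : Set.InjOn d (D : Set α)
      · exact ⟨D, hDQ, hD, le_rfl, hs, hd⟩
      · unfold Set.InjOn at hd
        push Not at hd
        obtain ⟨x, hx, y, hy, hxy, hne⟩ := hd
        obtain ⟨D', hD'Q, hD', hc, hm⟩ := match_step Q d s D hDQ hD.swap x y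
          (by exact_mod_cast hx) (by exact_mod_cast hy) hne hxy
        obtain ⟨M, hMQ, hM, hMc, hMs, hMd⟩ := ih D' hD'Q hD'.swap (by omega)
        exact ⟨M, hMQ, hM, hMc.trans hc, hMs, hMd⟩
    · unfold Set.InjOn at hs
      push Not at hs
      obtain ⟨x, hx, y, hy, hxy, hne⟩ := hs
      obtain ⟨D', hD'Q, hD', hc, hm⟩ := match_step Q s d D hDQ hD x y
        (by exact_mod_cast hx) (by exact_mod_cast hy) hne hxy
      obtain ⟨M, hMQ, hM, hMc, hMs, hMd⟩ := ih D' hD'Q hD' (by omega)
      exact ⟨M, hMQ, hM, hMc.trans hc, hMs, hMd⟩

/-- Hall type inequality for a matching. -/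
theorem hall_count (M : Finset α) (s d : α → ℕ) (hs : Set.InjOn s M) (hd : Set.InjOn d M)
    (tS tD A : ℕ) (hM : ∀ x ∈ M, s x < tS ∧ d x < tD ∧ s x ≤ d x + A) (ht : tS ≤ tD + A) (ht0 : 0 < tS)
    (q : ℕ) :
    (((Finset.range tS) \ M.image s).filter (fun i => i ≤ q)).card ≤
      A + (((Finset.range tD) \ M.image d).filter (fun j => j + A ≤ q)).card := by
  -- reduce to q < tS
  have key : ∀ q, q < tS → (((Finset.range tS) \ M.image s).filter (fun i => i ≤ q)).card ≤
      A + (((Finset.range tD) \ M.image d).filter (fun j => j + A ≤ q)).card := by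
    intro q hq
    have h1 : (((Finset.range tS) \ M.image s).filter (fun i => i ≤ q)).card +
        (M.filter (fun x => s x ≤ q)).card = q + 1 := by
      have e : (M.filter (fun x => s x ≤ q)).card = ((M.image s).filter (fun i => i ≤ q)).card := by
        rw [Finset.filter_image]
        symm
        apply Finset.card_image_of_injOn
        intro a ha b hb hab
        simp only [Finset.coe_filter, Set.mem_setOf_eq] at ha hb
        exact hs (by exact_mod_cast ha.1) (by exact_mod_cast hb.1) hab
      rw [e, ← Finset.card_union_of_disjoint]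
      · have : ((Finset.range tS) \ M.image s).filter (fun i => i ≤ q) ∪ (M.image s).filter (fun i => i ≤ q)
            = Finset.range (q + 1) := by
          ext i
          simp only [Finset.mem_union, Finset.mem_filter, Finset.mem_sdiff, Finset.mem_range]
          constructor
          · rintro (h | h) <;> omega
          · intro hi
            by_cases him : i ∈ M.image s
            · right; exact ⟨him, by omega⟩
            · left; exact ⟨⟨by omega, him⟩, by omega⟩
        rw [this, Finset.card_range]
      · rw [Finset.disjoint_left]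
        intro i hi hi2
        simp only [Finset.mem_filter, Finset.mem_sdiff] at hi hi2
        exact hi.1.2 hi2.1
    have h2 : q + 1 ≤ A + (((Finset.range tD) \ M.image d).filter (fun j => j + A ≤ q)).card +
        (M.filter (fun x => d x + A ≤ q)).card := by
      have e : (M.filter (fun x => d x + A ≤ q)).card = ((M.image d).filter (fun i => i + A ≤ q)).card := by
        rw [Finset.filter_image]
        symm
        apply Finset.card_image_of_injOn
        intro a ha b hb hab
        simp only [Finset.coe_filter, Set.mem_setOf_eq] at ha hb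
        exact hd (by exact_mod_cast ha.1) (by exact_mod_cast hb.1) hab
      have hsub : Finset.range (q + 1 - A) ⊆
          (((Finset.range tD) \ M.image d).filter (fun j => j + A ≤ q)) ∪ (M.image d).filter (fun i => i + A ≤ q) := by
        intro i hi
        simp only [Finset.mem_union, Finset.mem_filter, Finset.mem_sdiff, Finset.mem_range] at hi ⊢
        by_cases him : i ∈ M.image d
        · right; exact ⟨him, by omega⟩
        · left; exact ⟨⟨by omega, him⟩, by omega⟩
      have := Finset.card_le_card hsub
      rw [Finset.card_range] at this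
      have h3 := Finset.card_union_le (((Finset.range tD) \ M.image d).filter (fun j => j + A ≤ q))
        ((M.image d).filter (fun i => i + A ≤ q))
      omega
    have h3 : (M.filter (fun x => d x + A ≤ q)).card ≤ (M.filter (fun x => s x ≤ q)).card := by
      apply Finset.card_le_card
      intro x hx
      simp only [Finset.mem_filter] at hx ⊢
      have := hM x hx.1
      exact ⟨hx.1, by omega⟩
    omega
  by_cases hq : q < tS
  · exact key q hq
  · have h1 := key (tS - 1) (by omega)
    refine le_trans (Finset.card_le_card ?_) (h1.trans (Nat.add_le_add_left (Finset.card_le_card ?_) A))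
    · intro i hi
      simp only [Finset.mem_filter, Finset.mem_sdiff, Finset.mem_range] at hi ⊢
      exact ⟨hi.1, by omega⟩
    · intro i hi
      simp only [Finset.mem_filter, Finset.mem_sdiff, Finset.mem_range] at hi ⊢
      exact ⟨hi.1, by omega⟩

end Pool.Agent.Helper83.Bishops
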