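import Mathlib
import Pool.Agent.Helper83.BishopsConf
import Pool.Agent.Helper83.BishopsMatch

set_option autoImplicit false

namespace Pool.Agent.Helper83.Bishops

/-- index of the sum-diagonal -/
def sIdx (K n : ℕ) (x : Fin (K + 1) × Fin n) : ℕ := ((x.1 : ℕ) + x.2) / 2

/-- index of the difference-diagonal -/
def dIdx (K n : ℕ) (x : Fin (K + 1) × Fin n) : ℕ := ((x.2 : ℕ) + K - x.1) / 2

/-- squares of one colour -/
def col (K n e : ℕ) : Finset (Fin (K + 1) × Fin n) :=
  Finset.univ.filter (fun x => ((x.1 : ℕ) + x.2) % 2 = e)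

theorem mir_sdiff_image {α : Type*} [DecidableEq α] (M : Finset α) (s : α → ℕ) (t : ℕ)
    (hs : ∀ x ∈ M, s x < t) :
    mir t (Finset.range t \ M.image s) = Finset.range t \ M.image (fun x => t - 1 - s x) := by
  ext i
  simp only [mir, Finset.mem_image, Finset.mem_sdiff, Finset.mem_range, not_exists, not_and]
  constructor
  · rintro ⟨a, ⟨ha, ha2⟩, rfl⟩
    refine ⟨by omega, ?_⟩
    intro x hx hxa
    have := hs x hx
    exact ha2 x hx (by omega)
  · rintro ⟨hi, hi2⟩
    refine ⟨t - 1 - i, ⟨by omega, ?_⟩, by omega⟩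
    intro x hx hxa
    have := hs x hx
    exact hi2 x hx (by omega)

theorem color_conf (K n e e' A B c tS tD c' A' B' : ℕ) (hK : 1 ≤ K) (hn : 2 * (K + 1) < n) (he : e < 2)
    (he' : e' = (e + K) % 2) (hA : 2 * A + e = K + e') (hB : 2 * B + e' = K + e)
    (hc : 2 * c + e + e' = K) (htS : tS = (K + 1 + n - e) / 2) (htD : tD = (K + 1 + n - e') / 2)
    (hc' : c' + n + 1 + c = tS + tD) (hA' : A' + tD = B + tS) (hB' : B' + tS = A + tD)
    (M : Finset (Fin (K + 1) × Fin n)) (hMQ : M ⊆ col K n e)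
    (hM : Dom (col K n e) (sIdx K n) (dIdx K n) M)
    (hMs : Set.InjOn (sIdx K n) M) (hMd : Set.InjOn (dIdx K n) M) :
    Conf tS tD A B c A' B' c' (Finset.range tS \ M.image (sIdx K n))
      (Finset.range tD \ M.image (dIdx K n)) := by
  have hprop : ∀ x ∈ M, sIdx K n x < tS ∧ dIdx K n x < tD ∧ sIdx K n x ≤ dIdx K n x + A ∧
      dIdx K n x ≤ sIdx K n x + B := by
    intro x hx
    have h1 := hMQ hx
    simp only [col, Finset.mem_filter, Finset.mem_univ, true_and] at h1
    have hx1 := x.1.isLt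
    have hx2 := x.2.isLt
    unfold sIdx dIdx
    subst he'
    refine ⟨by omega, by omega, by omega, by omega⟩
  have hcS : (M.image (sIdx K n)).card = M.card := Finset.card_image_of_injOn hMs
  have hcD : (M.image (dIdx K n)).card = M.card := Finset.card_image_of_injOn hMd
  have hsubS : M.image (sIdx K n) ⊆ Finset.range tS := by
    intro i hi
    simp only [Finset.mem_image] at hi
    obtain ⟨x, hx, rfl⟩ := hi
    exact Finset.mem_range.mpr (hprop x hx).1
  have hsubD : M.image (dIdx K n) ⊆ Finset.range tD := by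
    intro i hi
    simp only [Finset.mem_image] at hi
    obtain ⟨x, hx, rfl⟩ := hi
    exact Finset.mem_range.mpr (hprop x hx).2.1
  have hcardS := Finset.card_sdiff_add_card_eq_card hsubS
  have hcardD := Finset.card_sdiff_add_card_eq_card hsubD
  rw [Finset.card_range] at hcardS hcardD
  have hMs' : Set.InjOn (fun x => tS - 1 - sIdx K n x) M := by
    intro a ha b hb hab
    have h1 := hprop a (by exact_mod_cast ha)
    have h2 := hprop b (by exact_mod_cast hb)
    simp only at hab
    exact hMs ha hb (by omega)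
  have hMd' : Set.InjOn (fun x => tD - 1 - dIdx K n x) M := by
    intro a ha b hb hab
    have h1 := hprop a (by exact_mod_cast ha)
    have h2 := hprop b (by exact_mod_cast hb)
    simp only at hab
    exact hMd ha hb (by omega)
  constructor
  · intro i hi
    exact Finset.mem_range.mp (Finset.mem_sdiff.mp hi).1
  · intro i hi
    exact Finset.mem_range.mp (Finset.mem_sdiff.mp hi).1
  · omega
  · omega
  · omega
  · omega
  · omega
  · omega
  · omega
  · omega
  · omega
  · omega
  · omega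
  · omega
  · intro i hi j hj
    by_contra hcon
    push Not at hcon
    obtain ⟨hc1, hc2, hc3, hc4⟩ := hcon
    have hr : i + B - j < K + 1 := by omega
    have hl : i + j - c < n := by omega
    set z : Fin (K + 1) × Fin n := (⟨i + B - j, hr⟩, ⟨i + j - c, hl⟩) with hz
    have hz1 : ((z.1 : ℕ) + z.2) = 2 * i + e := by
      simp only [hz]; omega
    have hz2 : ((z.2 : ℕ) + K - z.1) = 2 * j + e' := by
      simp only [hz]; omega
    have hzQ : z ∈ col K n e := by
      simp only [col, Finset.mem_filter, Finset.mem_univ, true_and]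
      omega
    have hzs : sIdx K n z = i := by unfold sIdx; omega
    have hzd : dIdx K n z = j := by unfold dIdx; omega
    obtain ⟨x, hx, hxz⟩ := hM z hzQ
    rcases hxz with h | h
    · exact (Finset.mem_sdiff.mp hi).2 (Finset.mem_image.mpr ⟨x, hx, by rw [h, hzs]⟩)
    · exact (Finset.mem_sdiff.mp hj).2 (Finset.mem_image.mpr ⟨x, hx, by rw [h, hzd]⟩)
  · intro q
    exact hall_count M (sIdx K n) (dIdx K n) hMs hMd tS tD A (fun x hx =>
      ⟨(hprop x hx).1, (hprop x hx).2.1, (hprop x hx).2.2.1⟩) (by omega) (by omega) q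
  · intro q
    exact hall_count M (dIdx K n) (sIdx K n) hMd hMs tD tS B (fun x hx =>
      ⟨(hprop x hx).2.1, (hprop x hx).1, (hprop x hx).2.2.2⟩) (by omega) (by omega) q
  · intro q
    rw [mir_sdiff_image M (sIdx K n) tS (fun x hx => (hprop x hx).1),
      mir_sdiff_image M (dIdx K n) tD (fun x hx => (hprop x hx).2.1)]
    exact hall_count M (fun x => tS - 1 - sIdx K n x) (fun x => tD - 1 - dIdx K n x) hMs' hMd' tS tD A'
      (fun x hx => by
        have := hprop x hx
        refine ⟨by omega, by omega, by omega⟩) (by omega) (by omega) q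
  · intro q
    rw [mir_sdiff_image M (sIdx K n) tS (fun x hx => (hprop x hx).1),
      mir_sdiff_image M (dIdx K n) tD (fun x hx => (hprop x hx).2.1)]
    exact hall_count M (fun x => tD - 1 - dIdx K n x) (fun x => tS - 1 - sIdx K n x) hMd' hMs' tD tS B'
      (fun x hx => by
        have := hprop x hx
        refine ⟨by omega, by omega, by omega⟩) (by omega) (by omega) q

theorem color_bound (K n e : ℕ) (hK : 1 ≤ K) (hn : 2 * (K + 1) < n) (he : e < 2)
    (D : Finset (Fin (K + 1) × Fin n)) (hDQ : D ⊆ col K n e)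
    (hD : Dom (col K n e) (sIdx K n) (dIdx K n) D) :
    (K + 1 + n) / 3 ≤ D.card := by
  obtain ⟨M, hMQ, hM, hMc, hMs, hMd⟩ := exists_matching (col K n e) (sIdx K n) (dIdx K n)
    (2 * D.card) D hDQ hD (by omega)
  obtain ⟨e', he'⟩ : ∃ e', e' = (e + K) % 2 := ⟨_, rfl⟩
  obtain ⟨A, hA⟩ : ∃ A, 2 * A + e = K + e' := ⟨(K + e' - e) / 2, by omega⟩
  obtain ⟨B, hB⟩ : ∃ B, 2 * B + e' = K + e := ⟨(K + e - e') / 2, by omega⟩
  obtain ⟨c, hc⟩ : ∃ c, 2 * c + e + e' = K := ⟨(K - e - e') / 2, by omega⟩
  obtain ⟨tS, htS⟩ : ∃ tS, tS = (K + 1 + n - e) / 2 := ⟨_, rfl⟩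
  obtain ⟨tD, htD⟩ : ∃ tD, tD = (K + 1 + n - e') / 2 := ⟨_, rfl⟩
  obtain ⟨c', hc'⟩ : ∃ c', c' + n + 1 + c = tS + tD := ⟨tS + tD - n - 1 - c, by omega⟩
  obtain ⟨A', hA'⟩ : ∃ A', A' + tD = B + tS := ⟨B + tS - tD, by omega⟩
  obtain ⟨B', hB'⟩ : ∃ B', B' + tS = A + tD := ⟨A + tD - tS, by omega⟩
  have hconf := color_conf K n e e' A B c tS tD c' A' B' hK hn he he' hA hB hc htS htD hc' hA' hB'
    M hMQ hM hMs hMd
  have hmain := hconf.main
  have hcS : (M.image (sIdx K n)).card = M.card := Finset.card_image_of_injOn hMs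
  have hcD : (M.image (dIdx K n)).card = M.card := Finset.card_image_of_injOn hMd
  have h1 := Finset.le_card_sdiff (M.image (sIdx K n)) (Finset.range tS)
  have h2 := Finset.le_card_sdiff (M.image (dIdx K n)) (Finset.range tD)
  rw [Finset.card_range] at h1 h2
  omega

end Pool.Agent.Helper83.Bishops
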