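import Mathlib

set_option autoImplicit false

namespace Pool.Agent.Helper83.Bishops

/-- the explicit pattern -/
def pat (K z x x' w1 : ℕ) : Finset (ℕ × ℕ) :=
  ((Finset.range x).image (fun _ => (K - 1, 1))) ∪
  (((Finset.range (w1 + 1)) ×ˢ (Finset.range K)).image
    (fun p => (if p.1 % 2 = 0 then K else 0, z + 3 * (K * p.1) + 2 * p.2))) ∪
  ((Finset.range x').image (fun t => (if w1 % 2 = 0 then K - x' else x',
    z + 3 * (K * w1) + 2 * K + x' + 2 * t)))

theorem pat_card (K z x x' w1 : ℕ) : (pat K z x x' w1).card ≤ x + (w1 + 1) * K + x' := by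
  unfold pat
  refine (Finset.card_union_le _ _).trans ?_
  refine Nat.add_le_add ((Finset.card_union_le _ _).trans (Nat.add_le_add ?_ ?_)) ?_
  · exact Finset.card_image_le.trans (by simp)
  · exact Finset.card_image_le.trans (by simp)
  · exact Finset.card_image_le.trans (by simp)

theorem pat_p1 (K z x' w1 : ℕ) : (K - 1, 1) ∈ pat K z 1 x' w1 := by
  unfold pat
  simp

theorem pat_even (K z x x' w1 v t : ℕ) (hv : 2 * v ≤ w1) (ht : t < K) :
    (K, z + 6 * (K * v) + 2 * t) ∈ pat K z x x' w1 := by
  unfold pat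
  simp only [Finset.mem_union, Finset.mem_image, Finset.mem_product, Finset.mem_range]
  left; right
  refine ⟨(2 * v, t), ⟨by omega, ht⟩, ?_⟩
  have h : (2 * v) % 2 = 0 := by omega
  simp only [h, if_true, Prod.mk.injEq, true_and]
  ring

theorem pat_odd (K z x x' w1 v t : ℕ) (hv : 2 * v + 1 ≤ w1) (ht : t < K) :
    (0, z + 6 * (K * v) + 3 * K + 2 * t) ∈ pat K z x x' w1 := by
  unfold pat
  simp only [Finset.mem_union, Finset.mem_image, Finset.mem_product, Finset.mem_range]
  left; right
  refine ⟨(2 * v + 1, t), ⟨by omega, ht⟩, ?_⟩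
  have h : ¬ ((2 * v + 1) % 2 = 0) := by omega
  simp only [h, if_false, Prod.mk.injEq, true_and]
  ring

theorem pat_end_even (K z x x' v t : ℕ) (ht : t < x') :
    (K - x', z + 6 * (K * v) + 2 * K + x' + 2 * t) ∈ pat K z x x' (2 * v) := by
  unfold pat
  simp only [Finset.mem_union, Finset.mem_image, Finset.mem_product, Finset.mem_range]
  right
  refine ⟨t, ht, ?_⟩
  have h : (2 * v) % 2 = 0 := by omega
  simp only [h, if_true, Prod.mk.injEq, true_and]
  ring

theorem pat_end_odd (K z x x' v t : ℕ) (ht : t < x') :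
    (x', z + 6 * (K * v) + 5 * K + x' + 2 * t) ∈ pat K z x x' (2 * v + 1) := by
  unfold pat
  simp only [Finset.mem_union, Finset.mem_image, Finset.mem_product, Finset.mem_range]
  right
  refine ⟨t, ht, ?_⟩
  have h : ¬ ((2 * v + 1) % 2 = 0) := by omega
  simp only [h, if_false, Prod.mk.injEq, true_and]
  ring

theorem pat_bounds (K x x' w1 n' : ℕ) (hK : 1 ≤ K) (hx : x ≤ 1) (hx' : x' < K)
    (hn' : n' = 3 * x + 1 + 3 * (K * w1) + 2 * K + 3 * x') :
    ∀ p ∈ pat K (3 * x + 1) x x' w1, p.1 ≤ K ∧ 1 ≤ p.2 ∧ p.2 + 2 ≤ n' := by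
  intro p hp
  unfold pat at hp
  simp only [Finset.mem_union, Finset.mem_image, Finset.mem_product, Finset.mem_range] at hp
  rcases hp with (⟨t, ht, rfl⟩ | ⟨⟨u, t⟩, ⟨hu, ht⟩, rfl⟩) | ⟨t, ht, rfl⟩
  · simp only
    omega
  · simp only at hu ht ⊢
    have h1 : K * u ≤ K * w1 := Nat.mul_le_mul_left K (by omega)
    refine ⟨?_, by omega, by omega⟩
    split_ifs <;> omega
  · simp only
    refine ⟨?_, by omega, by omega⟩
    split_ifs <;> omega

/-- two squares on a common diagonal -/
def Att (p : ℕ × ℕ) (r l : ℕ) : Prop := p.1 + p.2 = r + l ∨ p.2 + r = p.1 + l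

theorem pat_dom (K x x' w1 n' f r l : ℕ) (hK : 1 ≤ K) (hx : x ≤ 1) (hx' : x' < K)
    (hn' : n' = 3 * x + 1 + 3 * (K * w1) + 2 * K + 3 * x')
    (hf : (r + l) % 2 = f) (hxf : (x + f + K) % 2 = 1) (hr : r ≤ K) (hl : l < n') :
    ∃ p ∈ pat K (3 * x + 1) x x' w1, Att p r l := by
  by_cases h0 : l < 3 * x + 1
  · -- left end
    have hev : ∀ t, t < K → (K, 3 * x + 1 + 2 * t) ∈ pat K (3 * x + 1) x x' w1 := by
      intro t ht
      have := pat_even K (3 * x + 1) x x' w1 0 t (by omega) ht
      simpa using this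
    by_cases hx0 : x = 0
    · subst hx0
      refine ⟨_, hev ((K - r - 1) / 2) (by omega), ?_⟩
      right
      simp only
      omega
    · have hx1 : x = 1 := by omega
      subst hx1
      by_cases h4 : 4 + r ≤ l + K
      · refine ⟨_, hev ((l + K - r - 4) / 2) (by omega), ?_⟩
        right
        simp only
        omega
      · refine ⟨_, pat_p1 K (3 * 1 + 1) x' w1, ?_⟩
        unfold Att
        simp only
        omega
  · by_cases h1 : 3 * x + 1 + 3 * (K * w1) + 2 * K ≤ l
    · -- right end
      rcases Nat.even_or_odd' w1 with ⟨v, rfl | rfl⟩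
      · have e1 : K * (2 * v) = 2 * (K * v) := by ring
        rw [e1] at h1 hn'
        obtain ⟨y, hy⟩ : ∃ y, y = K * v := ⟨_, rfl⟩
        rw [← hy] at h1 hn'
        obtain ⟨ρ, hρ⟩ : ∃ ρ, l = 3 * x + 1 + 6 * y + 2 * K + ρ := ⟨l - (3 * x + 1 + 6 * y + 2 * K), by omega⟩
        by_cases h2 : ρ + r + 2 ≤ K
        · refine ⟨_, pat_even K (3 * x + 1) x x' (2 * v) v ((K + ρ + r) / 2) le_rfl (by omega), ?_⟩
          rw [← hy]
          left
          simp only
          omega
        · by_cases h3 : ρ + r + 2 ≤ K + 2 * x'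
          · refine ⟨_, pat_end_even K (3 * x + 1) x x' v ((ρ + r - K) / 2) (by omega), ?_⟩
            rw [← hy]
            left
            simp only
            omega
          · refine ⟨_, pat_end_even K (3 * x + 1) x x' v ((ρ + K - r - 2 * x') / 2) (by omega), ?_⟩
            rw [← hy]
            right
            simp only
            omega
      · have e1 : K * (2 * v + 1) = 2 * (K * v) + K := by ring
        rw [e1] at h1 hn'
        obtain ⟨y, hy⟩ : ∃ y, y = K * v := ⟨_, rfl⟩
        rw [← hy] at h1 hn'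
        obtain ⟨ρ, hρ⟩ : ∃ ρ, l = 3 * x + 1 + 6 * y + 5 * K + ρ := ⟨l - (3 * x + 1 + 6 * y + 5 * K), by omega⟩
        by_cases h2 : ρ + 2 ≤ r
        · refine ⟨_, pat_odd K (3 * x + 1) x x' (2 * v + 1) v ((2 * K + ρ - r) / 2) le_rfl (by omega), ?_⟩
          rw [← hy]
          right
          simp only
          omega
        · by_cases h3 : ρ + 2 ≤ r + 2 * x'
          · refine ⟨_, pat_end_odd K (3 * x + 1) x x' v ((ρ - r) / 2) (by omega), ?_⟩
            rw [← hy]
            right
            simp only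
            omega
          · refine ⟨_, pat_end_odd K (3 * x + 1) x x' v ((ρ + r - 2 * x') / 2) (by omega), ?_⟩
            rw [← hy]
            left
            simp only
            omega
    · -- middle
      obtain ⟨u, hu⟩ : ∃ u, u = (l - (3 * x + 1)) / (3 * K) := ⟨_, rfl⟩
      obtain ⟨ρ, hρ⟩ : ∃ ρ, ρ = (l - (3 * x + 1)) % (3 * K) := ⟨_, rfl⟩
      have hdm : 3 * K * u + ρ = l - (3 * x + 1) := by
        rw [hu, hρ]; exact Nat.div_add_mod _ _
      have hρ3 : ρ < 3 * K := by
        rw [hρ]; exact Nat.mod_lt _ (by omega)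
      have hl' : l = 3 * x + 1 + 3 * (K * u) + ρ := by
        have : 3 * K * u = 3 * (K * u) := by ring
        omega
      have huw : u ≤ w1 := by
        by_contra hcon
        have : K * (w1 + 1) ≤ K * u := Nat.mul_le_mul_left K (by omega)
        have e : K * (w1 + 1) = K * w1 + K := by ring
        omega
      have huw' : 2 * K ≤ ρ → u + 1 ≤ w1 := by
        intro h
        by_contra hcon
        have : u = w1 := by omega
        subst this
        omega
      clear hu hρ hdm
      rcases Nat.even_or_odd' u with ⟨v, rfl | rfl⟩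
      · have e1 : K * (2 * v) = 2 * (K * v) := by ring
        rw [e1] at hl'
        obtain ⟨y, hy⟩ : ∃ y, y = K * v := ⟨_, rfl⟩
        rw [← hy] at hl'
        by_cases h2 : ρ + r + 2 ≤ 3 * K
        · by_cases h3 : K ≤ ρ + r
          · refine ⟨_, pat_even K (3 * x + 1) x x' w1 v ((ρ + r - K) / 2) huw (by omega), ?_⟩
            rw [← hy]
            left
            simp only
            omega
          · refine ⟨_, pat_even K (3 * x + 1) x x' w1 v ((ρ + K - r) / 2) huw (by omega), ?_⟩
            rw [← hy]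
            right
            simp only
            omega
        · refine ⟨_, pat_odd K (3 * x + 1) x x' w1 v ((ρ + r - 3 * K) / 2) (huw' (by omega)) (by omega), ?_⟩
          rw [← hy]
          left
          simp only
          omega
      · have e1 : K * (2 * v + 1) = 2 * (K * v) + K := by ring
        rw [e1] at hl'
        obtain ⟨y, hy⟩ : ∃ y, y = K * v := ⟨_, rfl⟩
        rw [← hy] at hl'
        by_cases h2 : ρ + 2 ≤ r + 2 * K
        · by_cases h3 : r ≤ ρ
          · refine ⟨_, pat_odd K (3 * x + 1) x x' w1 v ((ρ - r) / 2) huw (by omega), ?_⟩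
            rw [← hy]
            right
            simp only
            omega
          · refine ⟨_, pat_odd K (3 * x + 1) x x' w1 v ((ρ + r) / 2) huw (by omega), ?_⟩
            rw [← hy]
            left
            simp only
            omega
        · have h5 := huw' (by omega)
          refine ⟨_, pat_even K (3 * x + 1) x x' w1 (v + 1) ((ρ - r - 2 * K) / 2) (by omega) (by omega), ?_⟩
          have e2 : K * (v + 1) = y + K := by rw [hy]; ring
          rw [e2]
          right
          simp only
          omega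

end Pool.Agent.Helper83.Bishops
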